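import Pool.Agent.H705.FP.Stm

/-! P_MOU of the project FP (owner helper705): the model exists. -/

set_option autoImplicit false

namespace Pool.Agent.H199.FP

open MeasureTheory ProbabilityTheory Filter Topology Finset
open Pool.Agent.H705.FP

theorem prob_I : IsProbabilityMeasure ((volume : Measure ℝ).restrict (Set.Icc (0 : ℝ) 1)) := by
  refine ⟨?_⟩
  rw [Measure.restrict_apply_univ, Real.volume_Icc]
  norm_num

theorem T_MOU : P_MOU := by
  refine ⟨?_, ?_⟩
  · have := prob_I
    refine ⟨ℕ → ℝ, inferInstance,
      Measure.infinitePi (fun _ : ℕ => (volume : Measure ℝ).restrict (Set.Icc (0 : ℝ) 1)),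
      fun n ω => ω n, ?_⟩
    refine ⟨inferInstance, fun n => measurable_pi_apply n, ?_, ?_⟩
    · exact iIndepFun_infinitePi
        (P := fun _ : ℕ => (volume : Measure ℝ).restrict (Set.Icc (0 : ℝ) 1))
        (X := fun (_ : ℕ) (p : ℝ) => p) (fun _ => measurable_id)
    · intro n
      exact Measure.infinitePi_map_eval
        (fun _ : ℕ => (volume : Measure ℝ).restrict (Set.Icc (0 : ℝ) 1)) n
  · intro Ω _ P U hM
    rw [ae_all_iff]
    intro n
    rw [ae_iff]
    have h1 : MeasurableSet ((Set.Icc (0 : ℝ) 1)ᶜ) := measurableSet_Icc.compl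
    have h2 := Measure.map_apply (hM.meas n) (μ := P) h1
    rw [hM.law n, Measure.restrict_apply h1, Set.compl_inter_self, measure_empty] at h2
    exact h2.symm

end Pool.Agent.H199.FP
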